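import Mathlib
import Pool.Agent.Y331.GJ.Zero

/-!
# The Julia set of a hyperbolic polynomial is a null set

The points which neither escape nor are attracted by a sink of a hyperbolic polynomial form a null
set. (The proof is that of `Pool.Agent.Y331.GJ.zero_area`, where there are no sinks.)
-/

set_option autoImplicit false

open Topology Filter Metric Set MeasureTheory Polynomial

namespace Pool.Agent.N634.LF

open Pool.Agent.H400R3.HI Pool.Agent.H713R5.QJ Pool.Agent.H713R3.ZA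
open Pool.Agent.W746.LD (Univ KC exists_KC)
open Pool.Agent.Y331.GJ (null_of_porous)

theorem zero_area {G : ℂ → ℂ} (hG : Differentiable ℂ G) {R : ℝ} (hR : 0 < R)
    (hGR : ∀ w, R ≤ ‖w‖ → 2 * ‖w‖ ≤ ‖G w‖) {A : Set ℂ} (hA : A.Finite) {P : ℕ} (hP : 0 < P)
    (hAG : ∀ a ∈ A, G a ∈ A) (hAP : ∀ a ∈ A, G^[P] a = a ∧ ‖deriv G^[P] a‖ < 1)
    (hC : {c | deriv G c = 0}.Finite) (hCg : ∀ c, deriv G c = 0 → Gd G A P c)
    (hAgd : ∀ a ∈ A, Gd G A P a) :
    volume {z : ℂ | ¬ Gd G A P z} = 0 := by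
  obtain ⟨C0, c0, K⟩ := exists_KC
  have hC1 := K.one_le
  have hc0 := K.pos
  set N : Set ℂ := {y | ¬ Gd G A P y} with hN
  have hopen : IsOpen {z | Gd G A P z} := gd_open hG hR hGR hP hAP
  have hcl : IsClosed N := hopen.isClosed_compl
  have hNiter : ∀ y ∈ N, ∀ n, G^[n] y ∈ N := fun y hy n h => hy (gd_of_iter hG hP hAG n h)
  have hNR : ∀ y ∈ N, ‖y‖ < R := fun y hy => bad_norm hR hGR hy
  have hNc : IsCompact N := by
    refine Metric.isCompact_of_isClosed_isBounded hcl ?_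
    refine (isBounded_ball (x := (0 : ℂ)) (r := R)).subset fun x hx => ?_
    rw [mem_ball_zero_iff]
    exact hNR x hx
  have hint : ∀ (x₀ : ℂ) (r₀ : ℝ), 0 < r₀ → ∃ w ∈ ball x₀ r₀, Gd G A P w := by
    intro x₀ r₀ hr₀
    by_contra hcon
    refine empty_int hG hR hGR hA hP hAG hAP hC hCg hAgd hr₀ (fun w hw hg => hcon ⟨w, hw, hg⟩)
  -- distance to the sinks
  obtain ⟨D, hD0, hD⟩ : ∃ D : ℝ, 0 < D ∧ ∀ a ∈ A, ∀ y, ¬ Gd G A P y → D ≤ dist a y := by
    obtain ⟨r, hr, h⟩ := Metric.exists_pos_forall_lt_edist hA.isCompact hcl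
      (Set.disjoint_left.mpr fun a ha h => h (hAgd a ha))
    refine ⟨r, by exact_mod_cast hr, fun a ha y hy => ?_⟩
    have h3 := h a ha y hy
    rw [edist_nndist, ENNReal.coe_lt_coe] at h3
    exact_mod_cast h3.le
  obtain ⟨δ, ⟨hδc, hδD⟩, hδ0⟩ : ∃ δ : ℝ, ((∀ c ∈ {c | deriv G c = 0}, ∀ k : ℕ, ∀ y,
      ¬ Gd G A P y → δ ≤ dist (G^[k] c) y) ∧ δ < D / 2) ∧ 0 < δ := by
    have h1 : ∀ᶠ δ : ℝ in 𝓝[>] 0, ∀ c ∈ {c | deriv G c = 0}, ∀ k : ℕ, ∀ y,
        ¬ Gd G A P y → δ ≤ dist (G^[k] c) y :=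
      (Filter.eventually_all_finite hC).mpr fun c hc =>
        away hG hR hGR hP hAG hAP hD0 hD (hCg c hc)
    have h2 : ∀ᶠ δ : ℝ in 𝓝[>] 0, δ < D / 2 :=
      nhdsWithin_le_nhds (gt_mem_nhds (by linarith))
    exact ((h1.and h2).and self_mem_nhdsWithin).exists
  have hnc : ∀ n : ℕ, ∀ y ∈ N, ∀ z, G^[n] z ∈ ball y δ → deriv G^[n] z ≠ 0 := by
    intro n y hy z hz h0
    obtain ⟨j, hj, hc⟩ := exists_crit_iter hG n h0
    have h1 := hδc _ hc (n - j) y hy
    rw [← Function.iterate_add_apply, show n - j + j = n by omega] at h1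
    rw [mem_ball] at hz
    linarith
  -- holes of a fixed size
  obtain ⟨κ, hκ0, hκ⟩ : ∃ κ : ℝ, 0 < κ ∧ ∀ y ∈ N, ∃ y' : ℂ, ball y' κ ⊆ ball y (δ / 4) ∧
      ∀ s ∈ ball y' κ, Gd G A P s := by
    refine hNc.induction_on (p := fun S => ∃ κ : ℝ, 0 < κ ∧ ∀ y ∈ S, ∃ y' : ℂ,
      ball y' κ ⊆ ball y (δ / 4) ∧ ∀ s ∈ ball y' κ, Gd G A P s) ?_ ?_ ?_ ?_
    · exact ⟨1, one_pos, fun y hy => absurd hy (Set.notMem_empty y)⟩
    · rintro s t hst ⟨κ, h1, h2⟩
      exact ⟨κ, h1, fun y hy => h2 y (hst hy)⟩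
    · rintro s t ⟨κ, h1, h2⟩ ⟨κ', h1', h2'⟩
      refine ⟨min κ κ', lt_min h1 h1', ?_⟩
      rintro y (hy | hy)
      · obtain ⟨y', h3, h4⟩ := h2 y hy
        have h5 : ball y' (min κ κ') ⊆ ball y' κ := ball_subset_ball (min_le_left _ _)
        exact ⟨y', h5.trans h3, fun s hs => h4 s (h5 hs)⟩
      · obtain ⟨y', h3, h4⟩ := h2' y hy
        have h5 : ball y' (min κ κ') ⊆ ball y' κ' := ball_subset_ball (min_le_right _ _)
        exact ⟨y', h5.trans h3, fun s hs => h4 s (h5 hs)⟩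
    · intro x _
      obtain ⟨w, hw, hwg⟩ := hint x (δ / 8) (by positivity)
      have h1 : ball x (δ / 8) ∩ {z | Gd G A P z} ∈ 𝓝 w :=
        (isOpen_ball.inter hopen).mem_nhds ⟨hw, hwg⟩
      obtain ⟨κ, hκ, hsub⟩ := Metric.mem_nhds_iff.mp h1
      refine ⟨ball x (δ / 8), mem_nhdsWithin_of_mem_nhds (ball_mem_nhds x (by positivity)),
        κ, hκ, fun y hy => ⟨w, fun s hs => ?_, fun s hs => (hsub hs).2⟩⟩
      have h2 := (hsub hs).1
      rw [mem_ball] at h2 hy ⊢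
      have h3 := dist_triangle s x y
      rw [dist_comm x y] at h3
      linarith
  -- bound of the branches
  have hbound : ∀ (n : ℕ) (y : ℂ), y ∈ N → ∀ h : ℂ → ℂ,
      (∀ s ∈ ball y δ, G^[n] (h s) = s) → ∀ s ∈ ball y δ, ‖h s‖ ≤ R + δ := by
    intro n y hy h hinv s hs
    by_contra hlt
    rw [not_le] at hlt
    have h4 : R ≤ ‖h s‖ := by linarith
    have h5 := pow_le_iter hR hGR h4 n
    rw [hinv s hs] at h5
    have h6 : (1 : ℝ) ≤ 2 ^ n := one_le_pow₀ (by norm_num)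
    have h7 : ‖s‖ < R + δ := by
      rw [mem_ball, dist_eq_norm] at hs
      have h8 := norm_add_le (s - y) y
      rw [sub_add_cancel] at h8
      linarith [hNR _ hy]
    nlinarith [norm_nonneg (h s)]
  -- the orbit of a good point is finally far from `N`
  have hfar : ∀ w, Gd G A P w → ∃ n : ℕ, ∀ y ∈ N, δ ≤ dist (G^[n] w) y := by
    intro w hw
    obtain ⟨n, hn⟩ := (far hG hR hGR hP hAG hAP hD0 hD hw).exists
    exact ⟨n, fun y hy => hδD.le.trans (hn y hy)⟩
  -- the branches contract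
  have hcontr : ∀ z ∈ N, ∀ m : ℝ, 0 < m → ∃ n : ℕ, ∀ h : ℂ → ℂ,
      DifferentiableOn ℂ h (ball (G^[n] z) δ) → h (G^[n] z) = z →
      (∀ s ∈ ball (G^[n] z) δ, G^[n] (h s) = s) → ‖deriv h (G^[n] z)‖ < m := by
    intro z hz m hm
    obtain ⟨ρ, hρ, hcov⟩ := cover (δ := δ) (B := R + δ) (m := m) hδ0 (by linarith) hm
    obtain ⟨w, hw, hwg⟩ := hint z ρ hρ
    obtain ⟨n, hn⟩ := hfar w hwg
    refine ⟨n, fun h hd hy hinv => ?_⟩
    by_contra hcon
    rw [not_lt] at hcon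
    have h1 := hcov h _ hd (hbound n _ (hNiter z hz n) h hinv) hcon
    rw [hy] at h1
    obtain ⟨s, hs, hsw⟩ := h1 hw
    have h2 : G^[n] w = s := by rw [← hsw]; exact hinv s hs
    have h3 := hn _ (hNiter z hz n)
    rw [h2] at h3
    rw [mem_ball] at hs
    linarith
  have hC0 : 0 < C0 := lt_of_lt_of_le one_pos hC1
  refine null_of_porous hcl.measurableSet (q := c0 * κ / (2 * C0 ^ 2 * δ)) (by positivity) ?_
  intro z hz ε hε
  obtain ⟨n, hn⟩ := hcontr z hz (ε / (C0 * δ)) (by positivity)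
  have hyN := hNiter z hz n
  obtain ⟨h, hd, hy, hinv⟩ := branch hG hR hGR hδ0 (hnc n _ hyN) rfl
  have hm1 := hn h hd hy hinv
  have hprod : deriv G^[n] z * deriv h (G^[n] z) = 1 := by
    have := mul_deriv_branch (hG.iterate n) hδ0 hd hinv
    rwa [hy] at this
  set y : ℂ := G^[n] z with hydef
  set m : ℝ := ‖deriv h y‖ with hmdef
  have hm0 : 0 < m := by
    rw [hmdef, norm_pos_iff]
    intro h0
    rw [h0, mul_zero] at hprod
    exact zero_ne_one hprod
  have hu : Univ h y δ := ⟨hd, fun a ha b hb hab => by rw [← hinv a ha, ← hinv b hb, hab]⟩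
  obtain ⟨y', hsub, hgood⟩ := hκ y hyN
  have hy'1 : y' ∈ ball y (δ / 4) := hsub (mem_ball_self hκ0)
  have hy'2 : ‖y' - y‖ ≤ δ / 4 := by
    rw [mem_ball, dist_eq_norm] at hy'1
    exact hy'1.le
  have hlip := K.lip hδ0 hu hy'2
  have hdist := (K.kdist h y δ hδ0 hu y' hy'2).2
  have hu' : Univ h y' κ := hu.mono (hsub.trans (ball_subset_ball (by linarith)))
  refine ⟨C0 * m * δ, h y', by positivity, ?_, ?_, ?_⟩
  · rw [lt_div_iff₀ (by positivity)] at hm1
    calc C0 * m * δ = m * (C0 * δ) := by ring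
      _ < ε := hm1
  · rw [dist_comm, dist_eq_norm]
    rw [hy] at hlip
    calc ‖h y' - z‖ ≤ C0 * m * ‖y' - y‖ := hlip
      _ ≤ C0 * m * δ := by
        gcongr
        linarith
  · intro s hs hsN
    have hqr : c0 * κ / (2 * C0 ^ 2 * δ) * (C0 * m * δ) = c0 * κ * (m / C0) / 2 := by
      field_simp
    rw [hqr, mem_closedBall, dist_comm, dist_eq_norm] at hs
    by_cases hsi : ∀ w ∈ ball y' κ, h w ≠ s
    · have h1 := K.komit h y' κ hκ0 hu' s hsi
      have h2 : m / C0 ≤ ‖deriv h y'‖ := by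
        rw [div_le_iff₀ hC0]
        linarith
      have h3 : c0 * κ * (m / C0) ≤ c0 * κ * ‖deriv h y'‖ := by gcongr
      have h4 : 0 < c0 * κ * (m / C0) := by positivity
      linarith
    · push Not at hsi
      obtain ⟨w, hw, hws⟩ := hsi
      have h1 : G^[n] s = w := by
        rw [← hws]
        exact hinv w (ball_subset_ball (by linarith) (hsub hw))
      refine hsN (gd_of_iter hG hP hAG n ?_)
      rw [h1]
      exact hgood w hw

/-- The polynomial version. -/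
theorem hyp_null {g : ℂ[X]} (hg : 2 ≤ g.natDegree) (hyp : Hyp g) :
    IsOpen {z | Good (ev g) z} ∧ volume {z : ℂ | ¬ Good (ev g) z} = 0 := by
  have hG := ev_diff g
  obtain ⟨R2, hR2⟩ := two_bound hg
  set R : ℝ := max 1 R2 with hR
  have hR0 : 0 < R := lt_of_lt_of_le one_pos (le_max_left _ _)
  have hGR := hR2 R (le_max_right _ _)
  have hA := sinks_finite hg
  obtain ⟨P, hP, hAP⟩ := common_period hG hA
  have hAG : ∀ a ∈ sinks (ev g), ev g a ∈ sinks (ev g) := fun a ha => map_sinks hG ha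
  have hset : {z | ¬ Good (ev g) z} = {z | ¬ Gd (ev g) (sinks (ev g)) P z} := by
    ext z
    exact not_congr (good_iff hG hP hAP z).symm
  rw [hset]
  refine ⟨(good_dense hg hyp).1, ?_⟩
  have hder : ∀ z, deriv (ev g) z = (derivative g).eval z := fun z => Polynomial.deriv _
  have hC : {c | deriv (ev g) c = 0} = {z : ℂ | (derivative g).eval z = 0} := by
    ext c; show deriv (ev g) c = 0 ↔ _; rw [hder]; rfl
  refine zero_area hG hR0 hGR hA hP hAG hAP (by rw [hC]; exact crit_finite (by omega)) ?_ ?_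
  · intro c hc
    rw [hder] at hc
    exact (good_iff hG hP hAP c).mpr (hyp c hc)
  · intro a ha
    refine Or.inr ⟨a, ha, ?_⟩
    have h1 : ∀ k : ℕ, (ev g)^[P * k] a = a := fun k => by
      rw [Function.iterate_mul]; exact Function.iterate_fixed (hAP a ha).1 k
    simp only [h1]
    exact tendsto_const_nhds

/-- The Julia set of a hyperbolic polynomial is a null set. -/
theorem julia_null {g : ℂ[X]} (hg : 2 ≤ g.natDegree) (hyp : Hyp g) :
    volume (frontier {z : ℂ | ¬ Tendsto (fun k : ℕ => ‖(fun z : ℂ => g.eval z)^[k] z‖)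
      atTop atTop}) = 0 := by
  refine measure_mono_null ?_ (hyp_null hg hyp).2
  intro z hz hgood
  have hG := ev_diff g
  obtain ⟨R2, hR2⟩ := two_bound hg
  set R : ℝ := max 1 R2 with hR
  have hR0 : 0 < R := lt_of_lt_of_le one_pos (le_max_left _ _)
  have hGR := hR2 R (le_max_right _ _)
  rcases hgood with h | ⟨P, hP, a, h1, h2, h3⟩
  · -- escaping points have escaping neighbourhoods
    obtain ⟨ρ, hρ, h4⟩ := unif_esc hG hR0 hGR h
    obtain ⟨n, hn⟩ := (h4 R).exists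
    have h5 : ∀ w ∈ ball z ρ, Tendsto (fun k : ℕ => ‖(ev g)^[k] w‖) atTop atTop := fun w hw =>
      good_of_iter_esc (m := n) (esc_of_large hR0 hGR (hn w hw).le)
    have h6 := frontier_subset_closure hz
    rw [Metric.mem_closure_iff] at h6
    obtain ⟨w, hw, hzw⟩ := h6 ρ hρ
    exact hw (h5 w (by rw [mem_ball, dist_comm]; exact hzw))
  · obtain ⟨ρ, hρ, h4⟩ := unif_att hG hP h1 h2 h3
    have h5 : ∀ w ∈ ball z ρ, ¬ Tendsto (fun k : ℕ => ‖(ev g)^[k] w‖) atTop atTop := by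
      intro w hw hesc
      have h6 : Tendsto (fun k : ℕ => (ev g)^[P * k] w) atTop (𝓝 a) := by
        rw [Metric.tendsto_nhds]
        intro ε hε
        filter_upwards [(tendsto_id.const_mul_atTop' hP).eventually (h4 ε hε)] with k hk
        have h7 := hk w hw
        have h8 : (ev g)^[P * k] a = a := by
          rw [Function.iterate_mul]; exact Function.iterate_fixed h1 k
        simpa [h8] using h7
      have h7 : Tendsto (fun k : ℕ => ‖(ev g)^[P * k] w‖) atTop atTop :=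
        hesc.comp (tendsto_id.const_mul_atTop' hP)
      exact not_tendsto_nhds_of_tendsto_atTop h7 _ h6.norm
    have h6 : z ∈ interior {z : ℂ | ¬ Tendsto (fun k : ℕ => ‖(fun z : ℂ => g.eval z)^[k] z‖)
        atTop atTop} := by
      rw [mem_interior]
      exact ⟨ball z ρ, h5, isOpen_ball, mem_ball_self hρ⟩
    exact hz.2 h6

end Pool.Agent.N634.LF
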