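import Mathlib
import Pool.Agent.N634.LF.Null

/-!
# Hyperbolic polynomials have null Julia sets and no invariant line fields
-/

set_option autoImplicit false

open Topology Filter Metric Set MeasureTheory Polynomial

namespace Pool.Agent.N634.LF

/-- The polynomial as a self-map of the plane. -/
def map (T : ℂ[X]) : ℂ → ℂ := fun z : ℂ => T.eval z

/-- The filled Julia set: the points whose orbits do not tend to infinity. -/
def filled (T : ℂ[X]) : Set ℂ :=
  {z : ℂ | ¬ Tendsto (fun k : ℕ => ‖(map T)^[k] z‖) atTop atTop}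

/-- The Julia set. -/
def julia (T : ℂ[X]) : Set ℂ := frontier (filled T)

/-- `μ` is an invariant line field supported on the Julia set of `T`: it is of absolute value one on
the set `S` of positive measure in the Julia set, vanishes off `S`, and is invariant. -/
structure LineField (T : ℂ[X]) (μ : ℂ → ℂ) (S : Set ℂ) : Prop where
  meas : Measurable μ
  one : ∀ z ∈ S, ‖μ z‖ = 1
  off : ∀ z, z ∉ S → μ z = 0
  pos : 0 < volume S
  sub : S ⊆ julia T
  inv : ∀ᵐ z : ℂ, μ (map T z) * (starRingEnd ℂ (deriv (map T) z) / deriv (map T) z) = μ z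

/-- The Julia set of `T` is a null set, and `T` has no invariant line field supported on it. -/
def Rigid (T : ℂ[X]) : Prop :=
  volume (julia T) = 0 ∧ ¬ ∃ (μ : ℂ → ℂ) (S : Set ℂ), LineField T μ S

/-- The orbit of `z` is attracted by an attracting periodic point of `T`. -/
def Attracted (T : ℂ[X]) (z : ℂ) : Prop :=
  ∃ n : ℕ, 0 < n ∧ ∃ x : ℂ, (map T)^[n] x = x ∧ ‖deriv ((map T)^[n]) x‖ < 1 ∧
    Tendsto (fun k : ℕ => (map T)^[n * k] z) atTop (𝓝 x)

/-- `T` is hyperbolic: every critical point escapes or is attracted by a sink. -/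
def Hyperbolic (T : ℂ[X]) : Prop :=
  ∀ c : ℂ, (derivative T).eval c = 0 →
    Tendsto (fun k : ℕ => ‖(map T)^[k] c‖) atTop atTop ∨ Attracted T c

theorem rigid_of_null {T : ℂ[X]} (h : volume (julia T) = 0) : Rigid T := by
  refine ⟨h, ?_⟩
  rintro ⟨μ, S, hS⟩
  exact hS.pos.ne' (measure_mono_null hS.sub h)

/-- Hyperbolic polynomials are rigid. -/
theorem Hyperbolic.rigid {T : ℂ[X]} (hT : 2 ≤ T.natDegree) (h : Hyperbolic T) : Rigid T :=
  rigid_of_null (julia_null hT h)

/-- The filled Julia set contains the Julia set. -/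
theorem julia_subset {T : ℂ[X]} (hT : 2 ≤ T.natDegree) : julia T ⊆ filled T := by
  intro z hz hesc
  obtain ⟨R2, hR2⟩ := Pool.Agent.H400R3.HI.two_bound hT
  have hR0 : (0 : ℝ) < max 1 R2 := lt_of_lt_of_le one_pos (le_max_left _ _)
  have hGR := hR2 (max 1 R2) (le_max_right _ _)
  obtain ⟨ρ, hρ, h4⟩ := Pool.Agent.H400R3.HI.unif_esc (Pool.Agent.H400R3.HI.ev_diff T) hR0 hGR hesc
  obtain ⟨m, hm⟩ := (h4 (max 1 R2)).exists
  have h6 := frontier_subset_closure hz
  rw [Metric.mem_closure_iff] at h6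
  obtain ⟨w, hw, hzw⟩ := h6 ρ hρ
  refine hw (Pool.Agent.H400R3.HI.good_of_iter_esc (m := m)
    (Pool.Agent.H400R3.HI.esc_of_large hR0 hGR (hm w ?_).le))
  rw [mem_ball, dist_comm]
  exact hzw

/-- The marked values of the pair `f, g`: the critical values of `f`, the values of `f` on the
forward orbits of the critical points of `g`, and the values of `f` at the sinks of `g`. -/
def Marked (f g : ℂ[X]) : Set ℂ :=
  {m | (∃ y : ℂ, (derivative f).eval y = 0 ∧ m = f.eval y) ∨
    (∃ (c : ℂ) (k : ℕ), (derivative g).eval c = 0 ∧ 1 ≤ k ∧ m = f.eval ((map g)^[k] c)) ∨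
    ∃ a : ℂ, (∃ p : ℕ, 0 < p ∧ (map g)^[p] a = a ∧ ‖deriv ((map g)^[p]) a‖ < 1) ∧ m = f.eval a}

end Pool.Agent.N634.LF
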