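import Mathlib
import Pool.Prelude.Def_F_c31e40fa
import Pool.Agent.N634.LF.Null

/-!
# Unicritical polynomials: hyperbolic parameters
-/

set_option autoImplicit false

open Topology Filter Metric Set MeasureTheory Polynomial

namespace Pool.Agent.N634.LF

open Pool.Agent.H400R3.HI Pool.Agent.H713R5.QJ Pool.Agent.H713R3.ZA
open N62a1eb23

/-- The polynomial `z ^ n + c`. -/
noncomputable def uni (n : ℕ) (c : ℂ) : ℂ[X] := X ^ n + C c

theorem ev_uni (n : ℕ) (c : ℂ) : ev (uni n c) = fun z : ℂ => z ^ n + c := by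
  funext z
  simp [ev, uni]

theorem natDegree_uni {n : ℕ} (hn : 2 ≤ n) (c : ℂ) : (uni n c).natDegree = n := by
  unfold uni
  rw [natDegree_add_C, natDegree_X_pow]

theorem crit_uni {n : ℕ} (hn : 2 ≤ n) (c : ℂ) {z : ℂ} (h : (derivative (uni n c)).eval z = 0) :
    z = 0 := by
  have h1 : (derivative (uni n c)).eval z = n * z ^ (n - 1) := by
    simp [uni, derivative_add, derivative_X_pow]
  rw [h1] at h
  have hn0 : (n : ℂ) ≠ 0 := by
    exact_mod_cast (show n ≠ 0 by omega)
  rcases mul_eq_zero.mp h with h2 | h2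
  · exact absurd h2 hn0
  · exact pow_eq_zero_iff (by omega) |>.mp h2

/-- Parameters outside the Multibrot set are hyperbolic. -/
theorem hyp_of_escape {n : ℕ} (hn : 2 ≤ n) {c : ℂ} (hc : c ∉ multibrotSet n) : Hyp (uni n c) := by
  intro z hz
  obtain rfl := crit_uni hn c hz
  left
  have h1 : Tendsto (fun k : ℕ => (fun z : ℂ => z ^ n + c)^[k] 0) atTop (Bornology.cobounded ℂ) := by
    by_contra h
    exact hc h
  rw [ev_uni]
  exact tendsto_norm_cobounded_atTop.comp h1

/-- Parameters with an attracting cycle are hyperbolic. -/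
theorem hyp_of_att {n : ℕ} (hn : 2 ≤ n) {c : ℂ}
    (hc : ∃ m z, IsAttractingCycle (fun z => z ^ n + c) m z) : Hyp (uni n c) := by
  obtain ⟨m, z, hm, hper, -, hder⟩ := hc
  intro w hw
  obtain rfl := crit_uni hn c hw
  right
  obtain ⟨k, hk⟩ : ∃ k, n = k + 1 := ⟨n - 1, by omega⟩
  have hk1 : 1 ≤ k := by omega
  set g := uni n c with hg
  have hdeg : g.natDegree = k + 1 := by rw [hg, natDegree_uni hn, hk]
  obtain ⟨x, hx⟩ := surj_holds k g hk1 hdeg
  set a : ℂ := g.coeff (k + 1) with ha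
  have ha0 : a ≠ 0 := by
    rw [ha, ← hdeg, coeff_natDegree, Ne, leadingCoeff_eq_zero]
    rintro h0
    rw [h0] at hdeg
    simp at hdeg
  have hfx : fx a k x = ev g := by
    funext w
    show (fam a k x).eval w = g.eval w
    rw [hx]
  have hev : ev g = fun z : ℂ => z ^ n + c := ev_uni n c
  obtain ⟨i, l, h3⟩ := fatp_holds ko0_holds ko1_holds ko2_holds ko3_holds root_holds kbp_holds
      a k m ha0 hk1 hm x z (by rw [hfx, hev]; exact hper) (by rw [hfx, hev]; exact hder)
  rw [hfx] at h3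
  have hroot : x (some i) = 0 := by
    refine crit_uni hn c ?_
    rw [← hg, ← hx, derivative_fam, dfam, eval_mul, eval_prod]
    rw [Finset.prod_eq_zero (Finset.mem_univ i) (by simp), mul_zero]
  rw [hroot] at h3
  exact ⟨m, hm, _, h3⟩

/-- Hyperbolic parameters: the Julia set is a null set. -/
theorem null_of_not_bad {n : ℕ} (hn : 2 ≤ n) {c : ℂ}
    (h : ¬ (c ∈ multibrotSet n ∧ ¬ ∃ m z, IsAttractingCycle (fun z => z ^ n + c) m z)) :
    volume (frontier {z : ℂ | ¬ Tendsto (fun k : ℕ => ‖(fun z : ℂ => (uni n c).eval z)^[k] z‖)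
      atTop atTop}) = 0 := by
  refine julia_null (by rw [natDegree_uni hn]; exact hn) ?_
  by_cases h1 : c ∈ multibrotSet n
  · exact hyp_of_att hn (by_contra fun h2 => h ⟨h1, h2⟩)
  · exact hyp_of_escape hn h1

end Pool.Agent.N634.LF
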